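import Pool.Agent.EH14.Txy

/-! A property of pairs of families which is closed under all `T_xy` and holds for a pair of
antichains holds for a pair of full levels (sorting by many passes of comparators). -/

open Finset

namespace EH14

variable {α : Type*} [DecidableEq α]

/-- Apply the comparators of the list one after the other. -/
def cL : List (α × α) → Finset α → Finset α
  | [], X => X
  | p :: l, X => cL l (toL p.1 p.2 X)

theorem cL_subset {V : Finset α} : ∀ (l : List (α × α)), (∀ p ∈ l, p.1 ∈ V ∧ p.2 ∈ V) →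
    ∀ X, X ⊆ V → cL l X ⊆ V
  | [], _, _, hX => hX
  | p :: l, hl, X, hX => by
      have hp := hl p (by simp)
      exact cL_subset l (fun q hq => hl q (by simp [hq])) _ (toL_subset hp.1 hX)

theorem card_cL : ∀ (l : List (α × α)) (X : Finset α), (cL l X).card = X.card
  | [], _ => rfl
  | p :: l, X => by
      show (cL l (toL p.1 p.2 X)).card = X.card
      rw [card_cL l, card_toL]

theorem cL_append : ∀ (l l' : List (α × α)) (X : Finset α), cL (l ++ l') X = cL l' (cL l X)
  | [], _, _ => rfl
  | p :: l, l', X => by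
      show cL (l ++ l') (toL p.1 p.2 X) = cL l' (cL l (toL p.1 p.2 X))
      exact cL_append l l' _

/-- All `X ⊆ V` which are carried into `A` by the comparators of `l`. -/
def famL (V : Finset α) (l : List (α × α)) (A : Finset (Finset α)) : Finset (Finset α) :=
  V.powerset.filter (fun X => cL l X ∈ A)

theorem mem_famL {V : Finset α} {l : List (α × α)} {A : Finset (Finset α)} {X : Finset α} :
    X ∈ famL V l A ↔ X ⊆ V ∧ cL l X ∈ A := by
  simp [famL]

theorem famL_nil {V : Finset α} {A : Finset (Finset α)} (hA : ∀ X ∈ A, X ⊆ V) :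
    famL V [] A = A := by
  ext X
  rw [mem_famL]
  constructor
  · rintro ⟨_, h⟩; exact h
  · intro h; exact ⟨hA X h, h⟩

theorem famL_cons {V : Finset α} {p : α × α} {l : List (α × α)} {A : Finset (Finset α)}
    (hp : p.1 ∈ V) : famL V (p :: l) A = L V p.1 p.2 (famL V l A) := by
  ext X
  rw [mem_famL, mem_L, mem_famL]
  constructor
  · rintro ⟨h1, h2⟩; exact ⟨h1, toL_subset hp h1, h2⟩
  · rintro ⟨h1, _, h2⟩; exact ⟨h1, h2⟩

/-- Closure of a property of pairs under `T_xy` gives closure under lists of comparators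
(to one side for `A`, to the other side for `B`). -/
theorem closed_list {V : Finset α} {P : Finset (Finset α) → Finset (Finset α) → Prop}
    (hP : ∀ A B x y, x ∈ V → y ∈ V → P A B → P (L V x y A) (L V y x B)) :
    ∀ l : List (α × α), (∀ p ∈ l, p.1 ∈ V ∧ p.2 ∈ V) → ∀ A B : Finset (Finset α),
      (∀ X ∈ A, X ⊆ V) → (∀ X ∈ B, X ⊆ V) → P A B →
      P (famL V l A) (famL V (l.map Prod.swap) B)
  | [], _, A, B, hA, hB, h => by
      show P (famL V [] A) (famL V [] B)
      rw [famL_nil hA, famL_nil hB]; exact h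
  | p :: l, hl, A, B, hA, hB, h => by
      have hp := hl p (by simp)
      show P (famL V (p :: l) A) (famL V (p.swap :: l.map Prod.swap) B)
      rw [famL_cons hp.1, famL_cons (show (p.swap).1 ∈ V from hp.2)]
      exact hP _ _ _ _ hp.1 hp.2
        (closed_list hP l (fun q hq => hl q (by simp [hq])) A B hA hB h)

/-- Potential. -/
def pot (w : α → ℕ) (X : Finset α) : ℕ := ∑ z ∈ X, w z

theorem pot_toL {w : α → ℕ} {x y : α} (hw : w x < w y) (X : Finset α) :
    pot w (toL x y X) ≤ pot w X ∧ (pot w (toL x y X) = pot w X → toL x y X = X) := by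
  unfold toL
  split_ifs with h
  · have h1 : pot w (insert x (X.erase y)) = w x + pot w (X.erase y) := by
      unfold pot
      exact sum_insert (fun h' => h.2 (mem_of_mem_erase h'))
    have h2 : w y + pot w (X.erase y) = pot w X := by
      unfold pot
      exact add_sum_erase X w h.1
    refine ⟨by omega, fun h3 => by omega⟩
  · exact ⟨le_rfl, fun _ => rfl⟩

theorem pot_cL {w : α → ℕ} : ∀ (l : List (α × α)), (∀ p ∈ l, w p.1 < w p.2) →
    ∀ X : Finset α, pot w (cL l X) ≤ pot w X ∧
      (pot w (cL l X) = pot w X → cL l X = X ∧ ∀ p ∈ l, toL p.1 p.2 X = X)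
  | [], _, X => ⟨le_rfl, fun _ => ⟨rfl, by simp⟩⟩
  | p :: l, hl, X => by
      have h1 := pot_toL (hl p (by simp)) X
      have h2 := pot_cL l (fun q hq => hl q (by simp [hq])) (toL p.1 p.2 X)
      show pot w (cL l (toL p.1 p.2 X)) ≤ pot w X ∧
        (pot w (cL l (toL p.1 p.2 X)) = pot w X → cL l (toL p.1 p.2 X) = X ∧ _)
      refine ⟨h2.1.trans h1.1, fun h => ?_⟩
      have h3 : toL p.1 p.2 X = X := h1.2 (by have := h2.1; have := h1.1; omega)
      rw [h3] at h2 h
      have h4 := h2.2 h
      refine ⟨by rw [h3]; exact h4.1, ?_⟩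
      intro q hq
      rcases List.mem_cons.mp hq with rfl | hq
      · exact h3
      · exact h4.2 q hq

/-- `N` passes. -/
def passes (l : List (α × α)) : ℕ → List (α × α)
  | 0 => []
  | n + 1 => l ++ passes l n

theorem mem_passes {l : List (α × α)} : ∀ {n : ℕ} {p : α × α}, p ∈ passes l n → p ∈ l
  | 0, _, h => by simp [passes] at h
  | n + 1, p, h => by
      rcases List.mem_append.mp (show p ∈ l ++ passes l n from h) with h | h
      · exact h
      · exact mem_passes h

theorem passes_map (l : List (α × α)) (f : α × α → α × α) :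
    ∀ n, (passes l n).map f = passes (l.map f) n
  | 0 => rfl
  | n + 1 => by
      show (l ++ passes l n).map f = l.map f ++ passes (l.map f) n
      rw [List.map_append, passes_map l f n]

theorem passes_fixed {w : α → ℕ} {l : List (α × α)} (hl : ∀ p ∈ l, w p.1 < w p.2) :
    ∀ (n : ℕ) (X : Finset α), pot w X ≤ n →
      ∀ p ∈ l, toL p.1 p.2 (cL (passes l n) X) = cL (passes l n) X
  | 0, X, hX => by
      intro p hp
      have h := pot_cL l hl X
      exact (h.2 (by have := h.1; omega)).2 p hp
  | n + 1, X, hX => by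
      intro p hp
      have e : cL (passes l (n + 1)) X = cL (passes l n) (cL l X) := cL_append _ _ _
      rw [e]
      have h := pot_cL l hl X
      by_cases hlt : pot w (cL l X) < pot w X
      · exact passes_fixed hl n (cL l X) (by omega) p hp
      · have h2 := h.2 (by have := h.1; omega)
        rw [h2.1]
        have h3 : ∀ m, cL (passes l m) X = X := by
          intro m
          induction m with
          | zero => rfl
          | succ m ih =>
              have e' : cL (passes l (m + 1)) X = cL (passes l m) (cL l X) := cL_append _ _ _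
              rw [e', h2.1, ih]
        rw [h3]
        exact h2.2 p hp

/-- After all passes, sets are nested: the images of sets of equal size agree. -/
theorem sorted_nested {V : Finset α} {w : α → ℕ} (hw : Set.InjOn w (V : Set α))
    {S T : Finset α} (hS : S ⊆ V) (hT : T ⊆ V)
    (h1 : ∀ x ∈ V, ∀ y ∈ V, w x < w y → toL x y S = S)
    (h2 : ∀ x ∈ V, ∀ y ∈ V, w x < w y → toL x y T = T) : S ⊆ T ∨ T ⊆ S := by
  by_contra hcon
  push Not at hcon
  obtain ⟨ha, hb⟩ := hcon
  obtain ⟨a, haS, haT⟩ := Finset.not_subset.mp ha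
  obtain ⟨b, hbT, hbS⟩ := Finset.not_subset.mp hb
  have hne : w a ≠ w b := by
    intro h
    have := hw (mem_coe.mpr (hS haS)) (mem_coe.mpr (hT hbT)) h
    subst this
    exact haT hbT
  rcases lt_or_gt_of_ne hne with h | h
  · have h3 := h2 a (hS haS) b (hT hbT) h
    unfold toL at h3
    rw [if_pos ⟨hbT, haT⟩] at h3
    exact haT (by rw [← h3]; exact mem_insert_self _ _)
  · have h3 := h1 b (hT hbT) a (hS haS) h
    unfold toL at h3
    rw [if_pos ⟨haS, hbS⟩] at h3
    exact hbS (by rw [← h3]; exact mem_insert_self _ _)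

/-- A family read through a sorting list of an antichain is empty or a full level. -/
theorem famL_level {V : Finset α} {w : α → ℕ} (hw : Set.InjOn w (V : Set α))
    {l : List (α × α)} (hl : ∀ p ∈ l, p.1 ∈ V ∧ p.2 ∈ V ∧ w p.1 < w p.2)
    (hl' : ∀ x ∈ V, ∀ y ∈ V, w x < w y → (x, y) ∈ l) {n : ℕ} (hn : pot w V ≤ n)
    {A : Finset (Finset α)} (hA : IsAntichain (· ⊆ ·) (A : Set (Finset α))) :
    famL V (passes l n) A = ∅ ∨ ∃ i ≤ V.card, famL V (passes l n) A = powersetCard i V := by
  rcases Finset.eq_empty_or_nonempty (famL V (passes l n) A) with h | ⟨X, hX⟩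
  · exact Or.inl h
  · right
    have hpot : ∀ Y, Y ⊆ V → pot w Y ≤ n := by
      intro Y hY
      refine le_trans ?_ hn
      unfold pot
      exact sum_le_sum_of_subset hY
    have hfix : ∀ Y, Y ⊆ V → ∀ x ∈ V, ∀ y ∈ V, w x < w y →
        toL x y (cL (passes l n) Y) = cL (passes l n) Y := by
      intro Y hY x hx y hy hxy
      exact passes_fixed (fun p hp => (hl p hp).2.2) n Y (hpot Y hY) (x, y) (hl' x hx y hy hxy)
    have hsub : ∀ Y, Y ⊆ V → cL (passes l n) Y ⊆ V := by
      intro Y hY
      exact cL_subset _ (fun p hp => ⟨(hl p (mem_passes hp)).1, (hl p (mem_passes hp)).2.1⟩) Y hY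
    obtain ⟨hXV, hXA⟩ := mem_famL.mp hX
    refine ⟨X.card, card_le_card hXV, ?_⟩
    have key : ∀ Y, Y ⊆ V → (cL (passes l n) Y = cL (passes l n) X ↔ Y.card = X.card) := by
      intro Y hY
      constructor
      · intro h
        have := congrArg Finset.card h
        rwa [card_cL, card_cL] at this
      · intro h
        have hc : (cL (passes l n) Y).card = (cL (passes l n) X).card := by
          rw [card_cL, card_cL]; exact h
        rcases sorted_nested hw (hsub Y hY) (hsub X hXV) (hfix Y hY) (hfix X hXV) with h1 | h1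
        · exact Finset.eq_of_subset_of_card_le h1 hc.ge
        · exact (Finset.eq_of_subset_of_card_le h1 hc.le).symm
    ext Y
    rw [mem_famL, mem_powersetCard]
    constructor
    · rintro ⟨hY, hYA⟩
      refine ⟨hY, ?_⟩
      rcases sorted_nested hw (hsub Y hY) (hsub X hXV) (hfix Y hY) (hfix X hXV) with h1 | h1
      · by_contra hne
        have : cL (passes l n) Y ≠ cL (passes l n) X := fun h => hne ((key Y hY).mp h)
        exact hA (mem_coe.mpr hYA) (mem_coe.mpr hXA) this h1
      · by_contra hne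
        have : cL (passes l n) X ≠ cL (passes l n) Y := fun h => hne ((key Y hY).mp h.symm)
        exact hA (mem_coe.mpr hXA) (mem_coe.mpr hYA) this h1
    · rintro ⟨hY, hc⟩
      exact ⟨hY, by rw [(key Y hY).mpr hc]; exact hXA⟩

/-- All pairs of `V` with increasing weight. -/
noncomputable def allp (w : α → ℕ) (V : Finset α) : List (α × α) :=
  ((V ×ˢ V).filter (fun p => w p.1 < w p.2)).toList

theorem mem_allp {w : α → ℕ} {V : Finset α} {p : α × α} :
    p ∈ allp w V ↔ p.1 ∈ V ∧ p.2 ∈ V ∧ w p.1 < w p.2 := by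
  simp [allp, and_assoc]

/-- **End of the symmetrisation.** A property of pairs of families of subsets of `V` closed under
all `T_xy` which holds for two antichains holds for a pair whose members are empty or full
levels. -/
theorem levels_of_closed {V : Finset α} {P : Finset (Finset α) → Finset (Finset α) → Prop}
    (hP : ∀ A B x y, x ∈ V → y ∈ V → P A B → P (L V x y A) (L V y x B))
    {A B : Finset (Finset α)} (hAV : ∀ X ∈ A, X ⊆ V) (hBV : ∀ X ∈ B, X ⊆ V)
    (hA : IsAntichain (· ⊆ ·) (A : Set (Finset α)))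
    (hB : IsAntichain (· ⊆ ·) (B : Set (Finset α))) (h : P A B) :
    ∃ A' B' : Finset (Finset α), P A' B' ∧
      (A' = ∅ ∨ ∃ i ≤ V.card, A' = powersetCard i V) ∧
      (B' = ∅ ∨ ∃ j ≤ V.card, B' = powersetCard j V) := by
  classical
  -- an injective weight on `V`
  obtain ⟨w, hw, hwlt⟩ : ∃ w : α → ℕ, Set.InjOn w (V : Set α) ∧ ∀ x ∈ V, w x < V.card := by
    refine ⟨fun a => if ha : a ∈ V then (V.equivFin ⟨a, ha⟩ : ℕ) else 0, ?_, ?_⟩
    · intro a ha b hb hab
      have ha' : a ∈ V := mem_coe.mp ha
      have hb' : b ∈ V := mem_coe.mp hb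
      simp only [ha', hb', dif_pos] at hab
      have := V.equivFin.injective (Fin.ext hab)
      exact congrArg Subtype.val this
    · intro x hx
      simp only [hx, dif_pos]
      exact (V.equivFin ⟨x, hx⟩).2
  let w' : α → ℕ := fun a => V.card - w a
  have hw' : Set.InjOn w' (V : Set α) := by
    intro a ha b hb hab
    have h1 := hwlt a (mem_coe.mp ha)
    have h2 := hwlt b (mem_coe.mp hb)
    have hab' : V.card - w a = V.card - w b := hab
    exact hw ha hb (by omega)
  let n := pot w V + pot w' V
  let l := allp w V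
  have hl : ∀ p ∈ l, p.1 ∈ V ∧ p.2 ∈ V ∧ w p.1 < w p.2 := fun p hp => mem_allp.mp hp
  have hl2 : ∀ x ∈ V, ∀ y ∈ V, w x < w y → (x, y) ∈ l :=
    fun x hx y hy hxy => mem_allp.mpr ⟨hx, hy, hxy⟩
  have hr : ∀ p ∈ l.map Prod.swap, p.1 ∈ V ∧ p.2 ∈ V ∧ w' p.1 < w' p.2 := by
    intro p hp
    obtain ⟨q, hq, rfl⟩ := List.mem_map.mp hp
    obtain ⟨q1, q2, q3⟩ := hl q hq
    refine ⟨q2, q1, ?_⟩
    show V.card - w q.2 < V.card - w q.1
    have := hwlt q.2 q2
    omega
  have hr2 : ∀ x ∈ V, ∀ y ∈ V, w' x < w' y → (x, y) ∈ l.map Prod.swap := by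
    intro x hx y hy hxy
    refine List.mem_map.mpr ⟨(y, x), hl2 y hy x hx ?_, rfl⟩
    have hxy' : V.card - w x < V.card - w y := hxy
    have := hwlt x hx
    have := hwlt y hy
    omega
  have hfin := closed_list hP (passes l n)
    (fun p hp => ⟨(hl p (mem_passes hp)).1, (hl p (mem_passes hp)).2.1⟩) A B hAV hBV h
  rw [passes_map] at hfin
  refine ⟨_, _, hfin, ?_, ?_⟩
  · exact famL_level hw hl hl2 (Nat.le_add_right _ _) hA
  · exact famL_level hw' hr hr2 (Nat.le_add_left _ _) hB

/-- The two full levels `i`, `j` have distance `min (i+j) (2n-i-j)`. -/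
theorem levels_dist {V : Finset α} {i j D : ℕ} (hi : i ≤ V.card) (hj : j ≤ V.card)
    (h : ∀ X ∈ powersetCard i V, ∀ Y ∈ powersetCard j V, (symmDiff X Y).card ≤ D) :
    (i + j ≤ V.card → i + j ≤ D) ∧ (V.card ≤ i + j → 2 * V.card ≤ D + i + j) := by
  obtain ⟨X, hXV, hX⟩ := exists_subset_card_eq hi
  have hc : (V \ X).card = V.card - i := by rw [card_sdiff_of_subset hXV, hX]
  constructor
  · intro hij
    obtain ⟨Y, hYV, hY⟩ := exists_subset_card_eq (show j ≤ (V \ X).card by omega)
    have hd := h X (mem_powersetCard.mpr ⟨hXV, hX⟩) Y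
      (mem_powersetCard.mpr ⟨hYV.trans sdiff_subset, hY⟩)
    have hdis : Disjoint X Y := (disjoint_sdiff).mono_right hYV
    have : symmDiff X Y = X ∪ Y := by
      rw [hdis.symmDiff_eq_sup]; rfl
    rw [this, card_union_of_disjoint hdis] at hd
    omega
  · intro hij
    obtain ⟨Y, hXY, hYV, hY⟩ := exists_subsuperset_card_eq
      (sdiff_subset (s := V) (t := X)) (show (V \ X).card ≤ j by omega) hj
    have hd := h X (mem_powersetCard.mpr ⟨hXV, hX⟩) Y (mem_powersetCard.mpr ⟨hYV, hY⟩)
    have hU : X ∪ Y = V := by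
      apply Finset.Subset.antisymm (union_subset hXV hYV)
      intro z hz
      by_cases hzX : z ∈ X
      · exact mem_union_left _ hzX
      · exact mem_union_right _ (hXY (mem_sdiff.mpr ⟨hz, hzX⟩))
    have h1 : (symmDiff X Y).card + (X ∩ Y).card = (X ∪ Y).card := by
      rw [symmDiff_eq_sup_sdiff_inf]
      show ((X ∪ Y) \ (X ∩ Y)).card + (X ∩ Y).card = (X ∪ Y).card
      exact card_sdiff_add_card_eq_card (inter_subset_union)
    have h2 := card_union_add_card_inter X Y
    rw [hU] at h1 h2
    omega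

end EH14
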