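import Mathlib

/-! Pair symmetrisation `T_xy` of two families of sets, and its end: full levels. -/

open Finset

namespace EH14

variable {α : Type*} [DecidableEq α]

/-- Move `y` to `x` when `y ∈ X` and `x ∉ X`. -/
def toL (x y : α) (X : Finset α) : Finset α :=
  if y ∈ X ∧ x ∉ X then insert x (X.erase y) else X

/-- The family of all `X ⊆ V` with `toL x y X ∈ A`. -/
def L (V : Finset α) (x y : α) (A : Finset (Finset α)) : Finset (Finset α) :=
  V.powerset.filter (fun X => toL x y X ∈ A)

theorem mem_L {V : Finset α} {x y : α} {A : Finset (Finset α)} {X : Finset α} :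
    X ∈ L V x y A ↔ X ⊆ V ∧ toL x y X ∈ A := by
  simp [L]

theorem toL_self (x : α) (X : Finset α) : toL x x X = X := by
  unfold toL
  by_cases h : x ∈ X <;> simp [h]

theorem mem_toL {x y : α} (hxy : x ≠ y) {X : Finset α} {z : α} :
    z ∈ toL x y X ↔ (z = x ∧ (x ∈ X ∨ y ∈ X)) ∨ (z = y ∧ x ∈ X ∧ y ∈ X) ∨
      (z ≠ x ∧ z ≠ y ∧ z ∈ X) := by
  unfold toL
  by_cases hx : z = x
  · subst hx
    by_cases h1 : z ∈ X <;> by_cases h2 : y ∈ X <;> simp [h1, h2, hxy]
  · by_cases hy : z = y
    · subst hy
      by_cases h1 : x ∈ X <;> by_cases h2 : z ∈ X <;> simp [h1, h2, hx]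
    · by_cases h1 : x ∈ X <;> by_cases h2 : y ∈ X <;> simp [h1, h2, hx, hy]

theorem card_toL (x y : α) (X : Finset α) : (toL x y X).card = X.card := by
  unfold toL
  split_ifs with h
  · rw [card_insert_of_notMem (fun h' => h.2 (mem_of_mem_erase h')), card_erase_of_mem h.1]
    have := card_pos.mpr ⟨y, h.1⟩
    omega
  · rfl

theorem toL_subset {V : Finset α} {x y : α} {X : Finset α} (hx : x ∈ V) (hX : X ⊆ V) :
    toL x y X ⊆ V := by
  unfold toL
  split_ifs with h
  · exact insert_subset hx ((erase_subset _ _).trans hX)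
  · exact hX

theorem toL_mono {x y : α} {X Y : Finset α} (h : X ⊆ Y) : toL x y X ⊆ toL x y Y := by
  by_cases hxy : x = y
  · subst hxy; simpa [toL_self] using h
  · intro z hz
    rw [mem_toL hxy] at hz ⊢
    rcases hz with ⟨h1, h2⟩ | ⟨h1, h2, h3⟩ | ⟨h1, h2, h3⟩
    · exact Or.inl ⟨h1, h2.imp (fun a => h a) (fun a => h a)⟩
    · exact Or.inr (Or.inl ⟨h1, h h2, h h3⟩)
    · exact Or.inr (Or.inr ⟨h1, h2, h h3⟩)

theorem L_subset (V : Finset α) (x y : α) (A : Finset (Finset α)) :
    ∀ X ∈ L V x y A, X ⊆ V := fun _ hX => (mem_L.mp hX).1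

theorem L_antichain (V : Finset α) (x y : α) {A : Finset (Finset α)}
    (hA : IsAntichain (· ⊆ ·) (A : Set (Finset α))) :
    IsAntichain (· ⊆ ·) (L V x y A : Set (Finset α)) := by
  intro X hX Y hY hne hsub
  have hX' := (mem_L.mp (mem_coe.mp hX)).2
  have hY' := (mem_L.mp (mem_coe.mp hY)).2
  have hlt : X.card < Y.card := card_lt_card (Finset.ssubset_iff_subset_ne.mpr ⟨hsub, hne⟩)
  have hsub' : toL x y X ⊆ toL x y Y := toL_mono hsub
  refine hA (mem_coe.mpr hX') (mem_coe.mpr hY') ?_ hsub'
  intro h
  have := congrArg Finset.card h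
  rw [card_toL, card_toL] at this
  omega

theorem card_split_pair {x y : α} (hxy : x ≠ y) (S : Finset α) :
    S.card = (S \ {x, y}).card + (if x ∈ S then 1 else 0) + (if y ∈ S then 1 else 0) := by
  have h1 : S.card = (S \ {x, y}).card + (S ∩ {x, y}).card := by
    rw [card_sdiff_add_card_inter]
  have h2 : (S ∩ {x, y}).card = (if x ∈ S then 1 else 0) + (if y ∈ S then 1 else 0) := by
    by_cases hx : x ∈ S <;> by_cases hy : y ∈ S
    · have : S ∩ {x, y} = {x, y} := by
        apply inter_eq_right.mpr
        intro z hz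
        simp only [mem_insert, mem_singleton] at hz
        rcases hz with rfl | rfl <;> assumption
      rw [this, card_pair hxy]; simp [hx, hy]
    · have : S ∩ {x, y} = {x} := by
        ext z
        simp only [mem_inter, mem_insert, mem_singleton]
        constructor
        · rintro ⟨hz, rfl | rfl⟩
          · rfl
          · exact absurd hz hy
        · rintro rfl; exact ⟨hx, Or.inl rfl⟩
      rw [this]; simp [hx, hy]
    · have : S ∩ {x, y} = {y} := by
        ext z
        simp only [mem_inter, mem_insert, mem_singleton]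
        constructor
        · rintro ⟨hz, rfl | rfl⟩
          · exact absurd hz hx
          · rfl
        · rintro rfl; exact ⟨hy, Or.inr rfl⟩
      rw [this]; simp [hx, hy]
    · have : S ∩ {x, y} = ∅ := by
        ext z
        simp only [mem_inter, mem_insert, mem_singleton, notMem_empty, iff_false]
        rintro ⟨hz, rfl | rfl⟩
        · exact hx hz
        · exact hy hz
      rw [this]; simp [hx, hy]
  omega

theorem card_symmDiff_le (x y : α) (X Y : Finset α) :
    (symmDiff X Y).card ≤ (symmDiff (toL x y X) (toL y x Y)).card := by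
  by_cases hxy : x = y
  · subst hxy; simp [toL_self]
  · have hyx : y ≠ x := fun h => hxy h.symm
    rw [card_split_pair hxy (symmDiff X Y),
      card_split_pair hxy (symmDiff (toL x y X) (toL y x Y))]
    have h1 : symmDiff X Y \ {x, y} = symmDiff (toL x y X) (toL y x Y) \ {x, y} := by
      ext z
      simp only [mem_sdiff, mem_symmDiff, mem_insert, mem_singleton, not_or, mem_toL hxy,
        mem_toL hyx]
      constructor
      · rintro ⟨h, hzx, hzy⟩
        simp [hzx, hzy, h]
      · rintro ⟨h, hzx, hzy⟩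
        simp [hzx, hzy] at h
        exact ⟨h, hzx, hzy⟩
    rw [h1]
    have h2 : (if x ∈ symmDiff X Y then 1 else 0) + (if y ∈ symmDiff X Y then 1 else 0) ≤
        (if x ∈ symmDiff (toL x y X) (toL y x Y) then 1 else 0) +
        (if y ∈ symmDiff (toL x y X) (toL y x Y) then (1:ℕ) else 0) := by
      simp only [mem_symmDiff, mem_toL hxy, mem_toL hyx]
      by_cases a1 : x ∈ X <;> by_cases a2 : y ∈ X <;> by_cases a3 : x ∈ Y <;>
        by_cases a4 : y ∈ Y <;> simp [a1, a2, a3, a4, hxy, hyx]
    omega

theorem L_dist (V : Finset α) (x y : α) {A B : Finset (Finset α)} {D : ℕ}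
    (h : ∀ X ∈ A, ∀ Y ∈ B, (symmDiff X Y).card ≤ D) :
    ∀ X ∈ L V x y A, ∀ Y ∈ L V y x B, (symmDiff X Y).card ≤ D := by
  intro X hX Y hY
  exact (card_symmDiff_le x y X Y).trans (h _ (mem_L.mp hX).2 _ (mem_L.mp hY).2)

theorem L_filter_with {V : Finset α} (x y : α) {A : Finset (Finset α)}
    (hA : ∀ X ∈ A, X ⊆ V) :
    (L V x y A).filter (fun X => x ∈ X) = A.filter (fun X => x ∈ X) := by
  ext X
  simp only [mem_filter, mem_L]
  have key : x ∈ X → toL x y X = X := by
    intro hx; unfold toL; simp [hx]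
  constructor
  · rintro ⟨⟨_, h⟩, hx⟩
    rw [key hx] at h
    exact ⟨h, hx⟩
  · rintro ⟨h, hx⟩
    exact ⟨⟨hA X h, by rw [key hx]; exact h⟩, hx⟩

theorem L_card_with {V : Finset α} (x y : α) {A : Finset (Finset α)}
    (hA : ∀ X ∈ A, X ⊆ V) :
    ((L V x y A).filter (fun X => x ∈ X)).card = (A.filter (fun X => x ∈ X)).card := by
  rw [L_filter_with x y hA]

theorem toL_toL {x y : α} {Z : Finset α} (hy : y ∉ Z) : toL x y (toL y x Z) = Z := by
  by_cases hxy : x = y
  · subst hxy; simp [toL_self]
  · have hyx : y ≠ x := fun h => hxy h.symm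
    ext z
    rw [mem_toL hxy, mem_toL hyx, mem_toL hyx, mem_toL hyx]
    by_cases hzx : z = x
    · subst hzx
      by_cases hz : z ∈ Z <;> simp [hz, hy, hxy, hyx]
    · by_cases hzy : z = y
      · subst hzy
        by_cases hz : x ∈ Z <;> simp [hz, hy, hxy, hyx]
      · simp [hzx, hzy]

theorem L_card_without {V : Finset α} {x y : α} (_hx : x ∈ V) (hy : y ∈ V)
    {A : Finset (Finset α)} (hA : ∀ X ∈ A, X ⊆ V) :
    ((L V x y A).filter (fun X => x ∉ X)).card = (A.filter (fun X => y ∉ X)).card := by
  by_cases hxy : x = y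
  · subst hxy
    congr 1
    ext X
    simp only [mem_filter, mem_L, toL_self]
    constructor
    · rintro ⟨⟨_, h⟩, h2⟩; exact ⟨h, h2⟩
    · rintro ⟨h, h2⟩; exact ⟨⟨hA X h, h⟩, h2⟩
  · have hyx : y ≠ x := fun h => hxy h.symm
    refine Finset.card_nbij' (toL x y) (toL y x) ?_ ?_ ?_ ?_
    · intro X hX
      simp only [coe_filter, Set.mem_ofPred_eq, mem_L] at hX ⊢
      refine ⟨hX.1.2, ?_⟩
      rw [mem_toL hxy]
      simp [hX.2, hyx]
    · intro Z hZ
      simp only [coe_filter, Set.mem_ofPred_eq, mem_L] at hZ ⊢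
      refine ⟨⟨toL_subset hy (hA Z hZ.1), by rw [toL_toL hZ.2]; exact hZ.1⟩, ?_⟩
      rw [mem_toL hyx]
      simp [hZ.2, hxy]
    · intro X hX
      simp only [coe_filter, Set.mem_ofPred_eq, mem_L] at hX
      exact toL_toL hX.2
    · intro Z hZ
      simp only [coe_filter, Set.mem_ofPred_eq] at hZ
      exact toL_toL hZ.2

theorem card_split_mem (A : Finset (Finset α)) (x : α) :
    (A.filter (fun X => x ∈ X)).card + (A.filter (fun X => x ∉ X)).card = A.card :=
  Finset.card_filter_add_card_filter_not (s := A) (fun X => x ∈ X)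

theorem L_card {V : Finset α} {x y : α} (hx : x ∈ V) (hy : y ∈ V)
    {A : Finset (Finset α)} (hA : ∀ X ∈ A, X ⊆ V) :
    (L V x y A).card = (A.filter (fun X => x ∈ X)).card + (A.filter (fun X => y ∉ X)).card := by
  rw [← card_split_mem (L V x y A) x, L_card_with x y hA, L_card_without hx hy hA]

theorem L_card_add {V : Finset α} {x y : α} (hx : x ∈ V) (hy : y ∈ V)
    {A : Finset (Finset α)} (hA : ∀ X ∈ A, X ⊆ V) :
    (L V x y A).card + (L V y x A).card = 2 * A.card := by
  rw [L_card hx hy hA, L_card hy hx hA]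
  have h1 := card_split_mem A x
  have h2 := card_split_mem A y
  omega

theorem card_member (A : Finset (Finset α)) (x : α) :
    (A.memberSubfamily x).card = (A.filter (fun X => x ∈ X)).card := by
  unfold Finset.memberSubfamily
  apply card_image_of_injOn
  intro X hX Y hY h
  have hX' : x ∈ X := (mem_filter.mp (mem_coe.mp hX)).2
  have hY' : x ∈ Y := (mem_filter.mp (mem_coe.mp hY)).2
  rw [← insert_erase hX', ← insert_erase hY']
  exact congrArg (insert x) h

theorem card_nonMember (A : Finset (Finset α)) (x : α) :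
    (A.nonMemberSubfamily x).card = (A.filter (fun X => x ∉ X)).card := rfl

/-- The section of `L V x y A` at `x` (members containing `x`) has the size of the old one. -/
theorem L_card_memberSubfamily {V : Finset α} (x y : α) {A : Finset (Finset α)}
    (hA : ∀ X ∈ A, X ⊆ V) :
    ((L V x y A).memberSubfamily x).card = (A.memberSubfamily x).card := by
  rw [card_member, card_member, L_card_with x y hA]

/-- The section of `L V x y A` at `x` (members without `x`) has the size of the old section of
`A` at `y` (members without `y`). -/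
theorem L_card_nonMemberSubfamily {V : Finset α} {x y : α} (hx : x ∈ V) (hy : y ∈ V)
    {A : Finset (Finset α)} (hA : ∀ X ∈ A, X ⊆ V) :
    ((L V x y A).nonMemberSubfamily x).card = (A.nonMemberSubfamily y).card := by
  rw [card_nonMember, card_nonMember, L_card_without hx hy hA]

end EH14
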